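import Mathlib
import Pool.Agent.R402.Meas
import Pool.Agent.Results.MP_cf4097_nt.WeakSubconvexity

/-!
# The values of standard L-functions of `GL(m)` just inside the critical strip, in measure

For every L-function of degree `m` with the analytic properties of the standard L-function of a
unitary cuspidal automorphic representation of `GL_m` over the rationals (Euler product with
Satake parameters of size at most `p^θ`, `θ < 1/2`, functional equation, entire of finite order,
Rankin-Selberg upper bound), for every real `t`, with `Q = Q(1/2 + i t)` the analytic conductor,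
and every `σ` with `1 ≤ (1 - σ) log Q ≤ log log Q`, the value `L(σ + i τ)` is close to the value
`L(1 + 1 / log Q + i τ)` to the right of the critical strip for most `τ` with `|τ - t| ≤ 1/2`:
their quotient differs from `1` by more than `η` only on a set of `τ` of measure at most
`B · η^{-2} · Q^{1 - σ} (log log Q)^4 / log Q`. In particular, outside a set of that measure (with
`η = 1`), `|L(σ + i τ)| ≤ 2 |L(1 + 1 / log Q + i τ)|`, while convexity gives this only with the
factor `Q^{(1 - σ) / 2}`, which is as large as `(log Q)^{1/2}` in the range considered.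
-/

set_option autoImplicit false

open scoped ArithmeticFunction.vonMangoldt

namespace Pool.Agent.Results.MP_52e316_nt.ValuesNearOne

/-- The data of a standard L-function of degree `m` over the rationals: the arithmetic conductor
`q`, the archimedean parameters `μ j` (the gamma factor is `∏ j, Γ_ℝ(s + μ j)`), the Satake
parameters `α p j` at the primes `p` (some of them zero at ramified primes; the values `α n j` at
non-primes `n` play no role), the root number `w` and the L-function `L`. -/
structure StdL (m : ℕ) where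
  /-- the arithmetic conductor -/
  q : ℕ
  /-- the archimedean parameters -/
  μ : Fin m → ℂ
  /-- the Satake parameters -/
  α : ℕ → Fin m → ℂ
  /-- the root number -/
  w : ℂ
  /-- the L-function -/
  L : ℂ → ℂ

/-- The analytic conductor `Q(s) = q ∏ j, (1 + |s + μ j|)`. -/
noncomputable def StdL.cond {m : ℕ} (D : StdL m) (s : ℂ) : ℝ := D.q * ∏ j, (1 + ‖s + D.μ j‖)

/-- The coefficient `a(n)` of `- L'/L (s) = ∑ Λ(n) a(n) n^{-s}`: at a prime power `n = p^k` it is
the power sum `∑ j, (α p j)^k` of the Satake parameters (its values at other `n` play no role, as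
there `Λ(n) = 0`). -/
noncomputable def StdL.a {m : ℕ} (D : StdL m) (n : ℕ) : ℂ :=
  ∑ j, D.α n.minFac j ^ (n.factorization n.minFac)

/-- The analytic properties of the standard L-function of a unitary cuspidal automorphic
representation of `GL_m` over the rationals. They hold for all of these with `θ = 1/2 - 1/(m^2+1)`
(Luo, Rudnick, Sarnak) and `A` depending on `m` only, except for the shifts of the zeta
function in degree one, which are not entire. -/
structure StdL.IsStandard {m : ℕ} (D : StdL m) (θ A : ℝ) : Prop where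
  /-- the conductor is positive -/
  q_pos : 0 < D.q
  /-- the root number has absolute value one -/
  w_norm : ‖D.w‖ = 1
  /-- the bound for the Satake parameters -/
  satake : ∀ p : ℕ, p.Prime → ∀ j, ‖D.α p j‖ ≤ (p : ℝ) ^ θ
  /-- the bound for the archimedean parameters -/
  arch : ∀ j, -θ ≤ (D.μ j).re
  /-- the L-function is entire -/
  entire : Differentiable ℂ D.L
  /-- it has finite order in the strip `-1/4 ≤ Re s ≤ 5/4` -/
  order : ∃ B : ℝ, ∀ s : ℂ, -1 / 4 ≤ s.re → s.re ≤ 5 / 4 →
    ‖D.L s‖ ≤ Real.exp (B * (1 + |s.im|) ^ B)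
  /-- the Euler product in the half plane `Re s > 1` -/
  euler : ∀ s : ℂ, 1 < s.re →
    HasProd (fun p : Nat.Primes => ∏ j, (1 - D.α p j * ((p : ℕ) : ℂ) ^ (-s))⁻¹) (D.L s)
  /-- the functional equation, relating `L` to the dual L-function `s ↦ conj (L (conj s))` -/
  functional : ∀ s : ℂ, D.L s * ∏ j, (Complex.Gammaℝ (1 - s + (starRingEnd ℂ) (D.μ j)))⁻¹ =
    D.w * (D.q : ℂ) ^ (1 / 2 - s) * (starRingEnd ℂ) (D.L (1 - (starRingEnd ℂ) s)) *
      ∏ j, (Complex.Gammaℝ (s + D.μ j))⁻¹
  /-- the Rankin-Selberg sums converge in the half plane `σ > 1` -/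
  rankin_summable : ∀ σ : ℝ, 1 < σ → Summable fun n : ℕ => Λ n * ‖D.a n‖ ^ 2 * (n : ℝ) ^ (-σ)
  /-- the Rankin-Selberg upper bound near `σ = 1` -/
  rankin : ∀ σ : ℝ, 1 < σ → σ ≤ 2 → ∀ t : ℝ,
    ∑' n : ℕ, Λ n * ‖D.a n‖ ^ 2 * (n : ℝ) ^ (-σ) ≤
      A * (1 / (σ - 1) + Real.log (D.cond (1 / 2 + t * Complex.I)))

/-- the same data, in the notation of the file on weak subconvexity -/
def StdL.old {m : ℕ} (D : StdL m) : MP_cf4097_nt.WeakSubconvexity.StdL m :=
  ⟨D.q, D.μ, D.α, D.w, D.L⟩

lemma old_isStandard {m : ℕ} {D : StdL m} {θ A : ℝ} (H : D.IsStandard θ A) :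
    D.old.IsStandard θ A :=
  ⟨H.q_pos, H.w_norm, H.satake, H.arch, H.entire, H.order, H.euler, H.functional,
    H.rankin_summable, H.rankin⟩

/-- The class is not empty: with one absolute constant `A` and `θ = 0` it contains the Dirichlet
L-functions of all primitive characters of modulus `q > 1` (degree one; `μ` is `0` or `1` according
to the parity). -/
theorem isStandard_dirichlet : ∃ A : ℝ, ∀ (q : ℕ) [NeZero q] (χ : DirichletCharacter ℂ q),
    1 < q → χ.IsPrimitive →
    (StdL.mk q (fun _ => H370.DL.aa χ) (fun n _ => χ n) (DirichletCharacter.rootNumber χ)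
      (DirichletCharacter.LFunction χ) : StdL 1).IsStandard 0 A := by
  obtain ⟨A, hA⟩ := MP_cf4097_nt.WeakSubconvexity.isStandard_dirichlet
  refine ⟨A, fun q _ χ hq hχ => ?_⟩
  have H := hA q χ hq hχ
  exact ⟨H.q_pos, H.w_norm, H.satake, H.arch, H.entire, H.order, H.euler, H.functional,
    H.rankin_summable, H.rankin⟩

/-- **Values just inside the critical strip, in measure.** For every degree `m`, every `θ < 1/2`
and every `A` there are `B` and `Q₁` such that for every standard L-function of degree `m` with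
parameters `θ` and `A`, every real `t` for which the analytic conductor `Q = Q(1/2 + i t)` is at
least `Q₁`, every real `σ` with `1 ≤ (1 - σ) log Q ≤ log log Q` and every `0 < η ≤ 1`: the set of
`τ` with `|τ - t| ≤ 1/2` and `|L(σ + i τ) / L(1 + 1 / log Q + i τ) - 1| > η` has measure at most
`B · η^{-2} · Q^{1 - σ} (log log Q)^4 / log Q`. -/
theorem result (m : ℕ) (θ A : ℝ) (hθ : θ < 1 / 2) :
    ∃ B Q₁ : ℝ, ∀ D : StdL m, D.IsStandard θ A → ∀ t : ℝ,
      Q₁ ≤ D.cond (1 / 2 + t * Complex.I) → ∀ σ : ℝ,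
      1 ≤ (1 - σ) * Real.log (D.cond (1 / 2 + t * Complex.I)) →
      (1 - σ) * Real.log (D.cond (1 / 2 + t * Complex.I)) ≤
        Real.log (Real.log (D.cond (1 / 2 + t * Complex.I))) →
      ∀ η : ℝ, 0 < η → η ≤ 1 →
        MeasureTheory.volume {τ : ℝ | |τ - t| ≤ 1 / 2 ∧ η <
          ‖D.L (σ + τ * Complex.I) /
            D.L ((1 + 1 / Real.log (D.cond (1 / 2 + t * Complex.I)) : ℝ) + τ * Complex.I) - 1‖} ≤
          ENNReal.ofReal (B * (η⁻¹ ^ 2 * (D.cond (1 / 2 + t * Complex.I) ^ (1 - σ) *
            Real.log (Real.log (D.cond (1 / 2 + t * Complex.I))) ^ 4 /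
              Real.log (D.cond (1 / 2 + t * Complex.I))))) := by
  have hd : (0:ℝ) ≤ m := Nat.cast_nonneg m
  have hCn : (1:ℝ) ≤ 24 ^ m := one_le_pow₀ (by norm_num)
  set δ : ℝ := (1 / 2 - θ) / 4 with hδdef
  have hδ : 0 < δ := by linarith
  have hδθ : θ + 4 * δ ≤ 1 / 2 := by rw [hδdef]; linarith
  obtain ⟨l0, hl04, hl0⟩ := Pool.Agent.R402.Zed.parZ_eventually
    (Cb := Pool.Agent.R402.Core.BG m δ / δ) hd hδ hδθ
    (div_nonneg (Pool.Agent.R402.Core.BG_nonneg hd) hδ.le)
  refine ⟨Pool.Agent.R402.Zed.Km (24 ^ m) A, Real.exp l0, fun D H t hQ σ hσ1 hσ2 η hη hη1 => ?_⟩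
  have hyp := MP_cf4097_nt.WeakSubconvexity.hyp_of hθ (old_isStandard H) t
  have hcond : D.old.cond (1 / 2 + t * Complex.I) = D.cond (1 / 2 + t * Complex.I) := rfl
  rw [hcond] at hyp
  set Q0 : ℝ := D.cond (1 / 2 + t * Complex.I) with hQ0def
  have hQ0 : 0 < Q0 := lt_of_lt_of_le (Real.exp_pos _) hQ
  have hl : l0 ≤ Real.log Q0 := by
    rw [Real.le_log_iff_exp_le hQ0]; exact hQ
  set l := Real.log Q0 with hldef
  have hlp : 0 < l := by linarith
  have p := hl0 l hl ((1 - σ) * l - 1) (by linarith) (by linarith)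
  have h1 := Pool.Agent.R402.Zed.meas_dev hyp hd hCn p le_rfl hη hη1
  have hre : 1 + 1 / l - ((1 - σ) * l - 1 + 2) / l = σ := by field_simp; ring
  -- translation by `t`
  have hset : {τ : ℝ | |τ - t| ≤ 1 / 2 ∧ η < ‖D.L (σ + τ * Complex.I) /
      D.L ((1 + 1 / l : ℝ) + τ * Complex.I) - 1‖} = (fun τ : ℝ => τ + -t) ⁻¹'
      {u : ℝ | |u| ≤ 1 / 2 ∧ η < Pool.Agent.R402.Zed.dev
        (fun s => D.old.L (s + t * Complex.I)) l ((1 - σ) * l - 1) u} := by
    ext τ
    simp only [Set.mem_ofPred_eq, Set.mem_preimage, Pool.Agent.R402.Zed.dev]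
    rw [hre, ← sub_eq_add_neg]
    have e1 : ((σ : ℂ) + ((τ - t : ℝ) : ℂ) * Complex.I + t * Complex.I) =
        (σ : ℂ) + τ * Complex.I := by push_cast; ring
    have e2 : (((1 + 1 / l : ℝ) : ℂ) + ((τ - t : ℝ) : ℂ) * Complex.I + t * Complex.I) =
        ((1 + 1 / l : ℝ) : ℂ) + τ * Complex.I := by push_cast; ring
    rw [e1, e2]
    rfl
  rw [hset, MeasureTheory.measure_preimage_add_right]
  refine h1.trans (ENNReal.ofReal_le_ofReal ?_)
  have hK := Pool.Agent.R402.Zed.Km_nonneg (A := A) hCn
  have hey : Real.exp ((1 - σ) * l - 1) ≤ Q0 ^ (1 - σ) := by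
    rw [Real.rpow_def_of_pos hQ0, ← hldef]
    apply Real.exp_le_exp.2
    linarith
  have hL4 : 0 ≤ Real.log l ^ 4 := by positivity
  refine mul_le_mul_of_nonneg_left ?_ hK
  refine mul_le_mul_of_nonneg_left ?_ (by positivity)
  exact div_le_div_of_nonneg_right (mul_le_mul_of_nonneg_right hey hL4) hlp.le

end Pool.Agent.Results.MP_52e316_nt.ValuesNearOne
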